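import Pool.Agent.MP_fcd29e_an.H11.CS

/-! Signed Fourier bases. -/

set_option autoImplicit false

open Complex Finset
open scoped ComplexConjugate

namespace Pool.Agent.MP_fcd29e_an.H46

open Pool.Agent.MP_fcd29e_an.H11

theorem flat (r : ℕ) (hr : 1 ≤ r) : ∃ f : Fin r → Fin r → ℂ, (∀ l k, ‖f l k‖ ^ 2 = 1 / r) ∧
    ∀ l l', ip (f l) (f l') = if l = l' then 1 else 0 := by
  obtain ⟨n, rfl⟩ : ∃ n, r = n + 1 := ⟨r - 1, by omega⟩
  have h0 : (0 : ℝ) < (n + 1 : ℕ) := by positivity
  have key : ∃ f : ZMod (n + 1) → ZMod (n + 1) → ℂ, (∀ l k, ‖f l k‖ ^ 2 = 1 / (n + 1 : ℕ)) ∧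
      ∀ l l', ∑ k, f l k * conj (f l' k) = if l = l' then 1 else 0 := by
    refine ⟨fun l k => ZMod.stdAddChar (k * l) / ((√(n + 1 : ℕ) : ℝ) : ℂ), fun l k => ?_,
      fun l l' => ?_⟩
    · rw [norm_div, AddChar.norm_apply, Complex.norm_real, Real.norm_eq_abs, div_pow, sq_abs,
        Real.sq_sqrt h0.le, one_pow]
    · have h1 : ∀ k : ZMod (n + 1), ZMod.stdAddChar (k * l) / ((√(n + 1 : ℕ) : ℝ) : ℂ) *
          conj (ZMod.stdAddChar (k * l') / ((√(n + 1 : ℕ) : ℝ) : ℂ)) =
          ZMod.stdAddChar (k * (l - l')) / ((n + 1 : ℕ) : ℂ) := fun k => by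
        rw [map_div₀, conj_ofReal, div_mul_div_comm, ← ofReal_mul, Real.mul_self_sqrt h0.le,
          ← AddChar.map_neg_eq_conj, ← AddChar.map_add_eq_mul, ofReal_natCast]
        congr 2
        ring
      simp only [h1, ← sum_div, AddChar.sum_mulShift _ (ZMod.isPrimitive_stdAddChar (n + 1)),
        sub_eq_zero, ZMod.card]
      split_ifs
      · exact div_self (by exact_mod_cast h0.ne')
      · simp
  exact key

theorem cols {r : ℕ} {b : Fin r → Fin r → ℂ}
    (h : ∀ l l', ip (b l) (b l') = if l = l' then 1 else 0) (k k' : Fin r) :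
    ∑ l, conj (b l k) * b l k' = if k = k' then 1 else 0 := by
  have h1 : Matrix.of b * (Matrix.of b).conjTranspose = 1 := by
    ext l l'
    rw [Matrix.one_apply, ← h]
    rfl
  have h3 : (Matrix.of b).conjTranspose * Matrix.of b = 1 := mul_eq_one_comm.1 h1
  have h2 := congrFun (congrFun h3 k) k'
  rw [Matrix.one_apply] at h2
  exact h2

theorem rot_apply {ι : Type} [Fintype ι] (w : ι → ℂ) (s : ℂ) (v : V ι) :
    rot 1 0 w s v = (v.1, fun k => v.2.1 k + (s - 1) * ((∑ i, v.2.1 i * w i) * conj (w k)),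
      fun k => v.2.2 k + (s⁻¹ - 1) * (ip v.2.2 w * w k)) := by
  have h1 : Bl (em 1 0 w) v = ∑ i, v.2.1 i * w i := by
    change B v (em 1 0 w) = _
    simp only [B, H11.em, ofReal_zero, ofReal_one, mul_zero, neg_zero, zero_add, sub_self, zero_mul,
      add_zero, sum_div]
    exact sum_congr rfl fun i _ => by ring
  have h2 : Bl (ep 1 0 w) v = ip v.2.2 w := by
    change B v (ep 1 0 w) = _
    simp only [B, ep, ip, ofReal_zero, ofReal_one, mul_zero, neg_zero, zero_add, sub_self, zero_mul,
      sum_div]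
    exact sum_congr rfl fun i _ => by ring
  simp only [rot, P0, Pp, Pm, ContinuousLinearMap.add_apply, ContinuousLinearMap.sub_apply,
    ContinuousLinearMap.smul_apply, ContinuousLinearMap.smulRight_apply,
    ContinuousLinearMap.one_apply, h1, h2]
  refine Prod.ext ?_ (Prod.ext (funext fun k => ?_) (funext fun k => ?_)) <;>
    simp [ep, H11.em] <;> ring

theorem prod_apply {r : ℕ} {b : Fin r → Fin r → ℂ}
    (h : ∀ l l', ip (b l) (b l') = if l = l' then 1 else 0) (s : ℂ) (v : V (Fin r))
    (L : List (Fin r)) (hL : L.Nodup) : (L.map fun l => rot 1 0 (b l) s).prod v =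
      (v.1, fun k => v.2.1 k + (s - 1) * ∑ l ∈ L.toFinset, (∑ i, v.2.1 i * b l i) * conj (b l k),
        fun k => v.2.2 k + (s⁻¹ - 1) * ∑ l ∈ L.toFinset, ip v.2.2 (b l) * b l k) := by
  induction L with
  | nil => simp
  | cons a L ih =>
    obtain ⟨ha, hL⟩ := List.nodup_cons.1 hL
    have ha' : a ∉ L.toFinset := by simpa using ha
    have h1 : ∑ i, (∑ l ∈ L.toFinset, (∑ i, v.2.1 i * b l i) * conj (b l i)) * b a i = 0 := by
      simp only [sum_mul _ _ (b a _)]
      rw [sum_comm]
      refine sum_eq_zero fun l hl => ?_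
      have := h a l
      rw [if_neg (fun e : a = l => ha' (e ▸ hl)), ip] at this
      simp only [mul_assoc, ← mul_sum, mul_comm (conj (b l _)), this, mul_zero]
    have h2 : ∑ i, (∑ l ∈ L.toFinset, ip v.2.2 (b l) * b l i) * conj (b a i) = 0 := by
      simp only [sum_mul _ _ (conj (b a _))]
      rw [sum_comm]
      refine sum_eq_zero fun l hl => ?_
      have := h l a
      rw [if_neg (fun e : l = a => ha' (e ▸ hl)), ip] at this
      simp only [mul_assoc, ← mul_sum, this, mul_zero]
    rw [List.map_cons, List.prod_cons, ContinuousLinearMap.mul_apply, ih hL, rot_apply,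
      List.toFinset_cons]
    refine Prod.ext rfl (Prod.ext (funext fun k => ?_) (funext fun k => ?_))
    · simp only [sum_insert ha', add_mul, sum_add_distrib, mul_assoc (s - 1), ← mul_sum, h1]
      ring
    · simp only [sum_insert ha']
      rw [ip.eq_1 _ (b a)]
      simp only [add_mul, sum_add_distrib, mul_assoc (s⁻¹ - 1), ← mul_sum, h2]
      rw [ip.eq_1 _ (b a)]
      ring

/-- The sign of a bit. -/
def sgn (x : Bool) : ℝ := if x then 1 else -1

theorem sgn_sq (x : Bool) : (sgn x : ℂ) * sgn x = 1 := by cases x <;> simp [sgn]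

theorem shd (hGR : SGR) : SHD := by
  intro r hr
  obtain ⟨f, hf, hf'⟩ := flat r hr
  have ho : ∀ (ε : Fin r → Bool) l l', ip (fun k => (sgn (ε k) : ℂ) * f l k)
      (fun k => (sgn (ε k) : ℂ) * f l' k) = if l = l' then 1 else 0 := fun ε l l' => by
    rw [← hf', ip, ip]
    refine sum_congr rfl fun k _ => ?_
    rw [map_mul, conj_ofReal, mul_mul_mul_comm, sgn_sq, one_mul]
  have hc : ∀ {b : Fin r → Fin r → ℂ}, (∀ l l', ip (b l) (b l') = if l = l' then 1 else 0) →
      ∀ (p : Fin r → ℂ) (k : Fin r), ∑ l, ip p (b l) * b l k = p k := fun {b} h p k => by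
    simp only [ip, sum_mul]
    rw [sum_comm]
    simp only [mul_assoc, ← mul_sum, cols h]
    simp
  refine ⟨fun ε l k => sgn (ε k) * f l k, ho, fun ε p => ?_, fun l => ?_, fun ε s _ => ?_,
    fun l t p u hp hu => ?_⟩
  · have h1 := hc (ho ε) p
    generalize (fun l k => (sgn (ε k) : ℂ) * f l k) = b at h1 ⊢
    refine ofReal_injective ?_
    simp only [nsq, ofReal_sum, ofReal_pow, ← mul_conj']
    conv_rhs => rw [sum_congr rfl fun k _ => by rw [mul_comm, ← h1 k, mul_sum, h1 k]]
    rw [sum_comm]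
    refine sum_congr rfl fun l _ => ?_
    rw [ip.eq_1 p, map_sum, mul_sum]
    refine sum_congr rfl fun k _ => ?_
    rw [map_mul, conj_conj]
    ring
  · funext k
    have h1 := Equiv.sum_comp (Function.Involutive.toPerm (fun (ε : Fin r → Bool) i => !ε i)
      fun ε => by simp) fun ε => (sgn (ε k) : ℂ) * f l k
    have h2 : ∀ x, (sgn (!x) : ℂ) = -sgn x := fun x => by cases x <;> simp [sgn]
    simp only [Function.Involutive.coe_toPerm, h2, neg_mul, sum_neg_distrib] at h1
    rw [Finset.sum_apply, Pi.zero_apply]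
    linear_combination (-1 / 2 : ℂ) * h1
  · refine ContinuousLinearMap.ext fun v => ?_
    rw [List.ofFn_eq_map, prod_apply (ho ε) s v _ (List.nodup_finRange r), (hGR.blk _ v s).2.2.2,
      List.toFinset_finRange]
    refine Prod.ext rfl (Prod.ext (funext fun k => ?_) (funext fun k => ?_))
    · have h1 := congrArg conj (hc (ho ε) (fun i => conj (v.2.1 i)) k)
      simp only [ip, map_sum, map_mul (starRingEnd ℂ) _ (_ * _), conj_conj] at h1
      simp only [map_mul (starRingEnd ℂ) (conj _), conj_conj] at h1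
      simp only [h1, Pi.smul_apply, smul_eq_mul]
      ring
    · simp only [hc (ho ε) v.2.2 k, Pi.smul_apply, smul_eq_mul]
      ring
  · obtain ⟨a, ha⟩ : ∃ a : Fin r → ℝ, ∀ k, a k = (u * (p k * conj (f l k))).re := ⟨_, fun _ => rfl⟩
    have h1 : ∀ ε : Fin r → Bool, Real.exp (t * (u * ip p fun k => (sgn (ε k) : ℂ) * f l k).re) =
        ∏ k, Real.exp (t * (sgn (ε k) * a k)) := fun ε => by
      rw [← Real.exp_sum, ← mul_sum, ip, mul_sum, re_sum]
      congr 2
      refine sum_congr rfl fun k _ => ?_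
      rw [ha, ← re_ofReal_mul, map_mul, conj_ofReal]
      congr 1
      ring
    have h2 : ∑ k, a k ^ 2 ≤ 1 / r := by
      rw [show (1 / r : ℝ) = nsq p * (1 / r) by rw [hp, one_mul], nsq, sum_mul]
      refine sum_le_sum fun k _ => ?_
      rw [← hf l k, ← mul_pow, ← sq_abs, ha]
      refine pow_le_pow_left₀ (abs_nonneg _) ((abs_re_le_norm _).trans ?_) 2
      rw [norm_mul, norm_mul, hu, one_mul, norm_conj]
    simp only [h1]
    rw [← Fintype.piFinset_univ, ← prod_univ_sum (fun _ => univ)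
      fun k x => Real.exp (t * (sgn x * a k))]
    calc ∏ k, ∑ x : Bool, Real.exp (t * (sgn x * a k))
        ≤ ∏ k, 2 * Real.exp ((t * a k) ^ 2 / 2) := by
          refine prod_le_prod (fun k _ => by positivity) fun k _ => ?_
          have := Real.cosh_le_exp_half_sq (t * a k)
          rw [Real.cosh_eq] at this
          simp only [Fintype.sum_bool, sgn, if_true, one_mul, Bool.false_eq_true, if_false,
            neg_mul, mul_neg]
          linarith
      _ = 2 ^ r * Real.exp (t ^ 2 / 2 * ∑ k, a k ^ 2) := by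
          rw [prod_mul_distrib, prod_const, card_univ, Fintype.card_fin, ← Real.exp_sum, mul_sum]
          congr 2
          exact sum_congr rfl fun k _ => by ring
      _ ≤ _ := by
          gcongr
          calc t ^ 2 / 2 * ∑ k, a k ^ 2 ≤ t ^ 2 / 2 * (1 / r) := by gcongr
            _ = _ := by rw [div_mul_div_comm, mul_one]

end Pool.Agent.MP_fcd29e_an.H46
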